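import Mathlib
import Pool.Agent.W237.RK.Defs
import Pool.Agent.H58R.Loc
import Pool.Agent.H58B.Low

set_option autoImplicit false

/-!
# Galois lemmas for the descent step
-/

namespace Pool.Agent.W369.RK

open Polynomial IntermediateField Module
open Pool.Agent.H58P (Qb ht qb_isIntegral)
open Pool.Agent.W237.RK

lemma normal_Qb : Normal ℚ Qb := by
  have : IsAlgClosure ℚ Qb := ⟨inferInstance, AlgebraicClosure.isAlgebraic ℚ⟩
  exact IsAlgClosure.normal ℚ Qb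

/-- a normal number field containing a given one and a finite set -/
lemma exists_nf_normal (E : GF) [FiniteDimensional ℚ E] (s : Set Qb) (hs : s.Finite) :
    ∃ M : GF, FiniteDimensional ℚ M ∧ E ≤ M ∧ s ⊆ M ∧ (∀ σ : Aut, ∀ x ∈ M, σ x ∈ M) := by
  have hsf : Finite s := hs
  have h1 : FiniteDimensional ℚ (IntermediateField.adjoin ℚ s) :=
    IntermediateField.finiteDimensional_adjoin fun y _ => qb_isIntegral y
  set K := E ⊔ IntermediateField.adjoin ℚ s with hK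
  have hKfd : FiniteDimensional ℚ K := inferInstance
  have hnormal := normal_Qb
  have hle : K ≤ normalClosure ℚ K Qb := K.le_normalClosure
  refine ⟨normalClosure ℚ K Qb, inferInstance, le_sup_left.trans hle, ?_, ?_⟩
  · intro x hx
    exact hle ((le_sup_right : IntermediateField.adjoin ℚ s ≤ K)
      (IntermediateField.subset_adjoin ℚ s hx))
  · have h2 := @normalClosure.normal ℚ K Qb _ _ _ _ _ _
    have h3 := IntermediateField.normal_iff_forall_map_le'.mp h2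
    intro σ x hx
    exact h3 σ ⟨x, hx, rfl⟩

lemma normal_of_stable' (M : GF) (hM : ∀ σ : Aut, ∀ x ∈ M, σ x ∈ M) :
    @Normal ℚ M _ _ M.algebra' := by
  have := normal_Qb
  rw [IntermediateField.normal_iff_forall_map_le']
  rintro σ _ ⟨x, hx, rfl⟩
  exact hM σ x hx

lemma normal_of_stable (M : GF) (hM : ∀ σ : Aut, ∀ x ∈ M, σ x ∈ M) : Normal ℚ M :=
  normal_of_stable' M hM

/-- automorphisms extend -/
lemma exists_lift (M : GF) (τ : M ≃ₐ[ℚ] M) : ∃ t : Aut, ∀ x : M, t x = (τ x : Qb) := by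
  have := normal_Qb
  exact ⟨τ.liftNormal Qb, fun x => τ.liftNormal_commutes Qb x⟩

/-- automorphisms restrict -/
lemma exists_res (M : GF) (hM : ∀ σ : Aut, ∀ x ∈ M, σ x ∈ M) (t : Aut) :
    ∃ τ : M ≃ₐ[ℚ] M, ∀ x : M, t x = (τ x : Qb) := by
  have := normal_of_stable M hM
  exact ⟨t.restrictNormal M, fun x => (t.restrictNormal_commutes M x).symm⟩

/-- the number of automorphisms of `M` fixing `K` -/
lemma card_fix (M K : GF) [FiniteDimensional ℚ M] (hK : K ≤ M)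
    (hM : ∀ σ : Aut, ∀ x ∈ M, σ x ∈ M) (H : Finset (M ≃ₐ[ℚ] M))
    (hH : ∀ τ : M ≃ₐ[ℚ] M, τ ∈ H ↔ ∀ x : M, (x : Qb) ∈ K → τ x = x) :
    H.card * finrank ℚ K = finrank ℚ M := by
  have hn := normal_of_stable M hM
  have hgal : IsGalois ℚ M := ⟨⟩
  set L : IntermediateField ℚ M := IntermediateField.restrict hK with hL
  have hmem : ∀ x : M, x ∈ L ↔ (x : Qb) ∈ K := fun x => IntermediateField.mem_restrict hK x
  have h1 : Nat.card L.fixingSubgroup = finrank L M := IsGalois.card_fixingSubgroup_eq_finrank L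
  have h2 : Nat.card L.fixingSubgroup = H.card := by
    rw [← Nat.card_eq_finsetCard]
    apply Nat.card_congr
    refine Equiv.subtypeEquivRight fun τ => ?_
    rw [hH]
    constructor
    · intro h x hx
      exact (IntermediateField.mem_fixingSubgroup_iff L τ).mp h x ((hmem x).mpr hx)
    · intro h
      rw [IntermediateField.mem_fixingSubgroup_iff]
      intro x hx
      exact h x ((hmem x).mp hx)
  have h3 : finrank ℚ L = finrank ℚ K :=
    (IntermediateField.restrictAlgEquiv hK).toLinearEquiv.finrank_eq.symm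
  rw [← h2, h1, ← h3, mul_comm, Module.finrank_mul_finrank]

/-- the count of the automorphisms conjugating `σ₀` to `σ` -/
lemma count (K E M : GF) [FiniteDimensional ℚ M] (hKE : K ≤ E) (hEM : E ≤ M)
    (hM : ∀ σ : Aut, ∀ x ∈ M, σ x ∈ M) (hN : NormalOver K E) (σ₀ σ : Aut) (S : Finset Aut)
    (m κ : ℕ) (hSm : S.card ≤ m) (hS : ∀ τ : Aut, Fix K τ → ∃ s ∈ S, AgreeOn E (τ * σ₀ * τ⁻¹) s)
    (hσ : ∃ τ : Aut, Fix K τ ∧ AgreeOn E (τ * σ₀ * τ⁻¹) σ) (hκ : finrank ℚ K ≤ κ) :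
    ∃ T : Finset (M ≃ₐ[ℚ] M), (∀ τ ∈ T, ∃ t : Aut, Fix K t ∧ (∀ x : M, t x = (τ x : Qb)) ∧
      AgreeOn E (t⁻¹ * σ₀ * t) σ) ∧ finrank ℚ M ≤ T.card * (κ * m) := by
  classical
  have hinv : ∀ t : Aut, Fix K t → Fix K t⁻¹ := by
    intro t ht x hx
    have h1 := ht x hx
    calc t⁻¹ x = t⁻¹ (t x) := by rw [h1]
      _ = x := by
        show (t⁻¹ * t) x = x
        rw [inv_mul_cancel]
        rfl
  have hmul : ∀ t t' : Aut, Fix K t → Fix K t' → Fix K (t * t') := by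
    intro t t' ht ht' x hx
    show t (t' x) = x
    rw [ht' x hx, ht x hx]
  set H : Finset (M ≃ₐ[ℚ] M) := Finset.univ.filter
    (fun τ => ∀ x : M, (x : Qb) ∈ K → τ x = x) with hHdef
  have hHmem : ∀ τ : M ≃ₐ[ℚ] M, τ ∈ H ↔ ∀ x : M, (x : Qb) ∈ K → τ x = x := by
    intro τ
    rw [hHdef, Finset.mem_filter]
    exact ⟨fun h => h.2, fun h => ⟨Finset.mem_univ _, h⟩⟩
  have hHcard := card_fix M K (hKE.trans hEM) hM H hHmem
  set P : Aut → (M ≃ₐ[ℚ] M) → Prop := fun s τ => ∃ t : Aut, Fix K t ∧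
    (∀ x : M, t x = (τ x : Qb)) ∧ AgreeOn E (t⁻¹ * σ₀ * t) s with hP
  set T : Finset (M ≃ₐ[ℚ] M) := Finset.univ.filter (fun τ => P σ τ) with hT
  refine ⟨T, fun τ hτ => ?_, ?_⟩
  · rw [hT, Finset.mem_filter] at hτ
    exact hτ.2
  obtain ⟨τ₀, hτ₀K, hτ₀⟩ := hσ
  obtain ⟨g₀, hg₀⟩ := exists_res M hM τ₀⁻¹
  -- `τ₀⁻¹` is the lift of `g₀ ∈ T`
  have key : ∀ s : Aut, (Finset.univ.filter (fun τ => P s τ)).card ≤ T.card := by
    intro s
    rcases (Finset.univ.filter (fun τ => P s τ)).eq_empty_or_nonempty with h0 | ⟨h₀, hh₀⟩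
    · rw [h0]
      simp
    rw [Finset.mem_filter] at hh₀
    obtain ⟨t₀, ht₀K, ht₀, ht₀s⟩ := hh₀.2
    apply Finset.card_le_card_of_injOn (fun h => h * h₀⁻¹ * g₀)
    · intro h hh
      rw [Finset.mem_coe, Finset.mem_filter] at hh
      obtain ⟨t, htK, ht, hts⟩ := hh.2
      rw [Finset.mem_coe, hT, Finset.mem_filter]
      refine ⟨Finset.mem_univ _, t * t₀⁻¹ * τ₀⁻¹, ?_, ?_, ?_⟩
      · exact hmul _ _ (hmul _ _ htK (hinv _ ht₀K)) (hinv _ hτ₀K)
      · intro x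
        show t (t₀⁻¹ (τ₀⁻¹ x)) = ((h (h₀⁻¹ (g₀ x)) : M) : Qb)
        rw [hg₀ x]
        have h1 : t₀⁻¹ ((g₀ x : M) : Qb) = ((h₀⁻¹ (g₀ x) : M) : Qb) := by
          have h2 := ht₀ (h₀⁻¹ (g₀ x))
          have h3 : h₀ (h₀⁻¹ (g₀ x)) = g₀ x := by
            show (h₀ * h₀⁻¹) (g₀ x) = g₀ x
            rw [mul_inv_cancel]
            rfl
          rw [h3] at h2
          rw [← h2]
          show (t₀⁻¹ * t₀) _ = _
          rw [inv_mul_cancel]
          rfl
        rw [h1, ht]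
      · intro x hx
        have e1 : (t * t₀⁻¹ * τ₀⁻¹)⁻¹ * σ₀ * (t * t₀⁻¹ * τ₀⁻¹) =
            τ₀ * (t₀ * (t⁻¹ * σ₀ * t) * t₀⁻¹) * τ₀⁻¹ := by group
        rw [e1]
        have hx1 : τ₀⁻¹ x ∈ E := hN _ (hinv _ hτ₀K) x hx
        have hx2 : t₀⁻¹ (τ₀⁻¹ x) ∈ E := hN _ (hinv _ ht₀K) _ hx1
        have e2 : (t⁻¹ * σ₀ * t) (t₀⁻¹ (τ₀⁻¹ x)) = (t₀⁻¹ * σ₀ * t₀) (t₀⁻¹ (τ₀⁻¹ x)) := by
          rw [hts _ hx2, ht₀s _ hx2]
        rw [← hτ₀ x hx]
        show τ₀ (t₀ ((t⁻¹ * σ₀ * t) (t₀⁻¹ (τ₀⁻¹ x)))) = τ₀ (σ₀ (τ₀⁻¹ x))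
        rw [e2]
        have e3 : t₀ * (t₀⁻¹ * σ₀ * t₀) * t₀⁻¹ = σ₀ := by group
        have e4 : t₀ ((t₀⁻¹ * σ₀ * t₀) (t₀⁻¹ (τ₀⁻¹ x))) =
            (t₀ * (t₀⁻¹ * σ₀ * t₀) * t₀⁻¹) (τ₀⁻¹ x) := rfl
        rw [e4, e3]
    · intro h _ h' _ hh
      have hh' : h * h₀⁻¹ * g₀ = h' * h₀⁻¹ * g₀ := hh
      exact mul_right_cancel (mul_right_cancel hh')
  have hsub : H ⊆ S.biUnion (fun s => Finset.univ.filter (fun τ => P s τ)) := by
    intro τ hτ
    rw [hHmem] at hτ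
    obtain ⟨t, ht⟩ := exists_lift M τ
    have htK : Fix K t := by
      intro x hx
      have hxM : x ∈ M := hEM (hKE hx)
      have h1 := ht ⟨x, hxM⟩
      rw [hτ ⟨x, hxM⟩ hx] at h1
      exact h1
    obtain ⟨s, hsS, hs⟩ := hS t⁻¹ (hinv t htK)
    rw [inv_inv] at hs
    rw [Finset.mem_biUnion]
    refine ⟨s, hsS, ?_⟩
    rw [Finset.mem_filter]
    exact ⟨Finset.mem_univ _, t, htK, ht, hs⟩
  have h1 : H.card ≤ m * T.card := by
    calc H.card ≤ _ := Finset.card_le_card hsub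
      _ ≤ S.card * T.card := Finset.card_biUnion_le_card_mul _ _ _ fun s _ => key s
      _ ≤ m * T.card := Nat.mul_le_mul_right _ hSm
  calc finrank ℚ M = H.card * finrank ℚ K := hHcard.symm
    _ ≤ (m * T.card) * κ := Nat.mul_le_mul h1 hκ
    _ = T.card * (κ * m) := by ring

/-! ## Conjugates -/

lemma orb_finite (E : GF) (β : Qb) : (orb E β).Finite := by
  have hint : IsIntegral E β := (qb_isIntegral β).tower_top
  refine ((minpoly E β).rootSet_finite Qb).subset ?_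
  rintro x ⟨σ, hσ, rfl⟩
  rw [Polynomial.mem_rootSet]
  refine ⟨minpoly.ne_zero hint, ?_⟩
  let g : Qb →ₐ[E] Qb := { (σ : Qb →+* Qb) with commutes' := fun x => hσ x x.2 }
  have h1 : g β = σ β := rfl
  rw [← h1, Polynomial.aeval_algHom_apply, minpoly.aeval, map_zero]

/-- every root of the minimal polynomial over `E` is a conjugate -/
lemma mem_orb_of_root (E : GF) (β x : Qb) (hx : aeval x (minpoly E β) = 0) : x ∈ orb E β := by
  have hn := normal_Qb
  have hE : Normal E Qb := Normal.tower_top_of_normal ℚ E Qb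
  have hint : IsIntegral E β := (qb_isIntegral β).tower_top
  have h1 : IsConjRoot E β x := by
    rw [isConjRoot_iff_aeval_eq_zero hint]
    exact hx
  obtain ⟨g, hg⟩ := isConjRoot_iff_exists_algEquiv.mp h1
  refine ⟨g.symm.restrictScalars ℚ, ?_, ?_⟩
  · intro y hy
    exact g.symm.commutes ⟨y, hy⟩
  · show g.symm β = x
    rw [← hg, AlgEquiv.symm_apply_apply]

lemma natDegree_le_orb (E : GF) (β : Qb) : (minpoly E β).natDegree ≤ (orb E β).ncard := by
  classical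
  have hint : IsIntegral E β := (qb_isIntegral β).tower_top
  have hsep : (minpoly E β).Separable := (minpoly.irreducible hint).separable
  have hnd := nodup_roots (hsep.map (f := algebraMap E Qb))
  have hcard : Multiset.card ((minpoly E β).map (algebraMap E Qb)).roots =
      (minpoly E β).natDegree := by
    rw [IsAlgClosed.card_roots_eq_natDegree, natDegree_map]
  rw [← hcard, ← Multiset.toFinset_card_of_nodup hnd, ← Set.ncard_coe_finset]
  apply Set.ncard_le_ncard _ (orb_finite E β)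
  intro x hx
  rw [Finset.mem_coe, Multiset.mem_toFinset, mem_roots'] at hx
  apply mem_orb_of_root
  have := hx.2
  rwa [IsRoot, eval_map_algebraMap] at this

end Pool.Agent.W369.RK
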